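import Pool.Agent.P.MP_563d58_an.Bidisc

set_option autoImplicit false
open MeasureTheory Filter Topology
open Pool.Agent.P.MP_563d58_an

namespace Pool.Agent.Results.MP_563d58_an.BidiscCorona

theorem result :
    ∃ (f g : ℝ → ℂ) (S A : Set (ℝ → ℂ)) (P : (ℝ → ℂ) → ℂ → ℂ) (φ : ℂ → ℂ → (ℝ → ℂ) → ℂ),
      Adm S ∧
      A = {h | h ∈ S ∧ ∀ n : ℕ, 0 < n →
        ∫ t in (0:ℝ)..(2 * Real.pi), h t * Complex.exp ((n : ℂ) * (t : ℂ) * Complex.I) = 0} ∧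
      (∀ h ζ, P h ζ = (∫ t in (0:ℝ)..(2 * Real.pi),
        h t * (((1 - ‖ζ‖ ^ 2) / ‖Complex.exp ((t : ℂ) * Complex.I) - ζ‖ ^ 2 : ℝ) : ℂ))
          / (2 * (Real.pi : ℂ))) ∧
      f ∈ A ∧ g ∈ A ∧
      (∀ S' : Set (ℝ → ℂ), Adm S' → f ∈ S' → g ∈ S' → S ⊆ S') ∧
      (∀ t : ℝ, Complex.exp ((t : ℂ) * Complex.I) ≠ 1 → ContinuousAt f t ∧ ContinuousAt g t) ∧
      (∀ ζ : ℂ, ‖ζ‖ < 1 → 1 / 2 ≤ ‖P f ζ‖ ∨ 1 / 2 ≤ ‖P g ζ‖) ∧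
      (∀ z w : ℂ, ‖z‖ < 1 → ‖w‖ < 1 →
        φ z w (fun _ => 1) = 1 ∧
        (∀ h ∈ A, ∀ k ∈ A, φ z w (h + k) = φ z w h + φ z w k) ∧
        (∀ c : ℂ, ∀ h ∈ A, φ z w (c • h) = c * φ z w h) ∧
        (∀ h ∈ A, ∀ k ∈ A, φ z w (h * k) = φ z w h * φ z w k) ∧
        (∀ h ∈ A, ∀ k ∈ A, h =ᵐ[volume] k → φ z w h = φ z w k) ∧
        φ z w f = z ∧ φ z w g = w) ∧
      (∀ h ∈ A,
        (∀ w : ℂ, ‖w‖ < 1 → DifferentiableOn ℂ (fun z => φ z w h) (Metric.ball 0 1)) ∧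
        (∀ z : ℂ, ‖z‖ < 1 → DifferentiableOn ℂ (fun w => φ z w h) (Metric.ball 0 1))) ∧
      (∀ z w : ℂ, ‖z‖ < 1 / 2 → ‖w‖ < 1 / 2 → ∃ ε : ℝ, 0 < ε ∧ ∀ ζ : ℂ, ‖ζ‖ < 1 →
        ε ≤ ‖P f ζ - φ z w f‖ ∨ ε ≤ ‖P g ζ - φ z w g‖) := by
  have hx : ∀ k, ‖xs k‖ = 1 := fun _ => norm_XX _
  have hy : ∀ k, ‖ys k‖ = 1 := fun _ => norm_XX _
  have fS : (fun t => FF xs (E t)) ∈ SS := ⟨FF_periodic _, good_FF hx, _, rel_xs⟩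
  have gS : (fun t => FF ys (E t)) ∈ SS := ⟨FF_periodic _, good_FF hy, _, rel_ys⟩
  have hU : ({fun t => FF xs (E t), fun t => FF ys (E t)} : Set (ℝ → ℂ)) ⊆ SS := by
    rintro h (rfl | rfl)
    exacts [fS, gS]
  have hpi : (2 * (Real.pi : ℂ)) ≠ 0 := by simp
  have low : ∀ ζ : ℂ, ‖ζ‖ < 1 →
      1 / 2 ≤ ‖(∫ t in (0:ℝ)..(2 * Real.pi), FF xs (E t) * (Pk ζ t : ℂ)) / (2 * (Real.pi : ℂ))‖ ∨
      1 / 2 ≤ ‖(∫ t in (0:ℝ)..(2 * Real.pi), FF ys (E t) * (Pk ζ t : ℂ)) / (2 * (Real.pi : ℂ))‖ := by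
    intro ζ hζ
    rw [FF_poisson hx hζ, FF_poisson hy hζ, mul_div_cancel_left₀ _ hpi, mul_div_cancel_left₀ _ hpi]
    exact FF_lower hx hy xs_ys hζ
  have v1 : ∀ z w : ℂ, ‖z‖ < 1 → ‖w‖ < 1 → chi z w (fun t => FF xs (E t)) = z :=
    fun z w hz hw => by rw [chi_eq z w (good_FF hx) rel_xs, ev2_X1 hz hw]
  have v2 : ∀ z w : ℂ, ‖z‖ < 1 → ‖w‖ < 1 → chi z w (fun t => FF ys (E t)) = w :=
    fun z w hz hw => by rw [chi_eq z w (good_FF hy) rel_ys, ev2_X2 hz hw]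
  refine ⟨fun t => FF xs (E t), fun t => FF ys (E t),
    gen {fun t => FF xs (E t), fun t => FF ys (E t)}, _, _, chi, adm_gen hU, rfl,
    fun _ _ => rfl, ⟨fun S _ h => h (Or.inl rfl), fun n hn => ?_⟩,
    ⟨fun S _ h => h (Or.inr rfl), fun n hn => ?_⟩, fun S' hS' h1 h2 h hh => hh S' hS' ?_,
    fun t ht => ⟨FF_contAt hx ht, FF_contAt hy ht⟩, low, fun z w hz hw => ⟨?_, ?_, ?_, ?_, ?_,
      v1 z w hz hw, v2 z w hz hw⟩, ?_, ?_⟩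
  · simp_rw [exp_nat]
    exact FF_an hx n hn
  · simp_rw [exp_nat]
    exact FF_an hy n hn
  · rintro k (rfl | rfl)
    exacts [h1, h2]
  · rw [chi_eq z w (good_of_periodic continuous_const fun _ => rfl)
      (rel_const continuous_const fun _ => rfl), ev2_const hz hw]
  · rintro h ⟨hh, -⟩ k ⟨hk, -⟩
    obtain ⟨-, gf, Φ, hΦ⟩ := gen_sub hU hh
    obtain ⟨-, gg, Ψ, hΨ⟩ := gen_sub hU hk
    rw [chi_eq z w gf hΦ, chi_eq z w gg hΨ, chi_eq z w (gf.add gg) (hΦ.add gf gg hΨ),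
      ev2_add hz hw]
  · rintro c h ⟨hh, -⟩
    obtain ⟨-, gf, Φ, hΦ⟩ := gen_sub hU hh
    rw [chi_eq z w gf hΦ, chi_eq z w (gf.smul c) (hΦ.smul c gf), ev2_smul]
  · rintro h ⟨hh, Af⟩ k ⟨hk, Ag⟩
    obtain ⟨-, gf, Φ, hΦ⟩ := gen_sub hU hh
    obtain ⟨-, gg, Ψ, hΨ⟩ := gen_sub hU hk
    simp_rw [exp_nat] at Af Ag
    rw [chi_eq z w gf hΦ, chi_eq z w gg hΨ, chi_eq z w (gf.mul gg) (hΦ.mul gf gg hΨ)]
    exact ev2_mul hz hw (Appr.an b1_0 b1_1 gf hΦ.1 Af) (Appr.an b2_0 b2_1 gf hΦ.2 Af)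
      (Appr.an b1_0 b1_1 gg hΨ.1 Ag) (Appr.an b2_0 b2_1 gg hΨ.2 Ag)
  · rintro h ⟨hh, -⟩ k ⟨hk, -⟩ e
    obtain ⟨-, gf, Φ, hΦ⟩ := gen_sub hU hh
    obtain ⟨-, gg, Ψ, hΨ⟩ := gen_sub hU hk
    rw [chi_eq z w gf hΦ, chi_eq z w gg hΨ, Appr.unique b1_0 b1_1 gf gg hΦ.1 hΨ.1 e]
  · rintro h ⟨hh, -⟩
    obtain ⟨-, gf, Φ, hΦ⟩ := gen_sub hU hh
    simp only [fun z w => chi_eq z w gf hΦ]
    exact ⟨fun w hw => ev2_diff1 hw Φ, fun z hz => ev2_diff2 hz Φ⟩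
  · intro z w hz hw
    refine ⟨min (1 / 2 - ‖z‖) (1 / 2 - ‖w‖), lt_min (by linarith) (by linarith), fun ζ hζ => ?_⟩
    rw [v1 z w (by linarith) (by linarith), v2 z w (by linarith) (by linarith)]
    rcases low ζ hζ with h | h
    · left
      refine (min_le_left _ _).trans (le_trans ?_ (norm_sub_norm_le _ z))
      exact sub_le_sub_right h _
    · right
      refine (min_le_right _ _).trans (le_trans ?_ (norm_sub_norm_le _ w))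
      exact sub_le_sub_right h _

end Pool.Agent.Results.MP_563d58_an.BidiscCorona
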